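import Pool.Agent.H367.OS.OOri

/-!
# Twists of abelian varieties and single pieces of one sequence of cubics

A relation `r` of size `m` is one of the equations `x_i x_j = x_l`, `x_i + x_j = x_l`, `x_i = 1` with
`i, j, l < m`; the relations are numbered, the number of `r` is `ν(r)` (`relNum`). Let `G_m` be the
following polynomial with integral coefficients (`univG ℤ m`). There are variables `x_i` and `z_ij` for
`i, j < m`, a variable `c_r` for every relation `r`, and variables `y_{r,l}` for all relations `r` and
`l < (m + 1) 2 ^ ν(r)`. The equations (`eqnG`) are

  `z_ij - x_i x_j`,  `c_r ^ 2 - c_r`,  `c_r ρ_r`,  `(1 - c_r) y_{r,l}`,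

where `ρ_r` is the linear polynomial `z_ij - x_l`, `x_i + x_j - x_l` or `x_i - 1` of the relation.
`G_m` is the sum of the equations multiplied by further variables `t_e`, one for each equation. It has
degree three. Let `C_m` be the affine cubic hypersurface `G_m = 1` (`cubG R m` over the ring `R`); it is
smooth over the integers.

Let `M` be the category of motives over `ℚ` for absolute Hodge cycles, a semisimple abelian category
with Tate twists `N ↦ N(a)`. For a separated scheme `X` of finite type over `ℚ` let `D.G w j X =
Gr^W_w H^j_c(X)` be the part of weight `w` of the cohomology with compact supports, a motive over `ℚ`;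
for smooth projective `Y` it is `h^j(Y)` if `j = w`, and zero otherwise.

For an abelian variety `B : Ab` over `ℚ` let `h1 B` be the motive `h^1(B)`. For a field `F` as in the
problem (`i ∈ I`), `G = Gal(F/ℚ)`, let `V.cont i B` be the condition that the functions `L_C(B, ψ, z)`
have analytic continuations to `z = 1`, and `V.val i B` the element of `ℂ[G] = ∏_ψ ℂ` with the
components `𝓛_C(B, ψ)`, `ψ ∈ Ĝ`. The statements (i) and (ii) of question Q1 for `B` and `F` say that
this element is in `ℚ[G]`. `Rational S V B` says that this is true for all `F` with the continuation;
it is question Q1 for `B`.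

The abelian varieties over `ℚ` are smooth projective schemes, and the direct factors of the motive
`h^1(Y)` of a smooth projective scheme `Y` over `ℚ` are the motives `h^1(B)` of abelian varieties `B`
over `ℚ` (the quotients of the Albanese variety of `Y`); see `AbelianVarieties`. For abelian varieties
over `ℚ` the motive `h^1(B)` is a direct factor of `h^1(B')` if and only if `B` is isogenous to a
factor of `B'` up to isogeny.

**Theorem.** Let `E_m` be the number of the equations, and for `N ∈ ℕ` let `e = (m + 1) N + E_m - 1`
(`esh m N`).

(1) For all `m ≥ 1` and `N` the motive `Gr^W_{2e+1} H^{2e+2}_c(C_m)(e)` is `h^1(B)` for an abelian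
variety `B = B_{m,N}` over `ℚ`, and for every abelian variety `B` over `ℚ` and all large `m` there is
an `N` such that `h^1(B)` is a direct factor of `h^1(B_{m,N})`.

(2) Question Q1 has a positive answer for all abelian varieties over `ℚ` if and only if for infinitely
many `m` and all `N` the statements (i) and (ii) are true for all abelian varieties `B` such that
`h^1(B)` is a direct factor of the single motive `Gr^W_{2e+1} H^{2e+2}_c(C_m)(e)`, the motive
`h^1(B_{m,N})`.

(3) `G_m` has integral coefficients and degree at most three, and `C_m` is smooth over all rings.

The hypotheses on the motives are standard (`IsMot`): exact sequences, affine bundles, disjoint unions,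
the cohomology of affine spaces, the weights of `H^j_c(X)` are between `0` and `2 dim X`, monomorphisms
split, `Gr^W_w H^j_c(X)` is a direct factor of `h^w(Y)` for some smooth projective `Y` (it is a
subquotient, by the weight spectral sequence), and every smooth projective scheme has an affine bundle
whose total space is affine (Jouanolou).

Idea of the proof. The projection of `C_m` to the affine space with the coordinates `x, z, c, y` is an
affine bundle over the complement of the zero set `W_m` of the equations. The scheme `W_m` is the
disjoint union, over all sets `s` of relations (`c_r = 1` for `r ∈ s` and `c_r = 0` for the others), of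
the products `X_s × 𝔸 ^ ((m + 1) N(s))`, where `X_s` is the affine scheme defined by the relations in
`s` and `N(s) = ∑_{r ∈ s} 2 ^ ν(r)`. The numbers `N(s)` are different, and the weights of the
cohomology of `X_s` are between `0` and `2 m`. So the part of weight `w + 2 (m + 1) N(s)`,
`0 ≤ w ≤ 2 m + 1`, of the cohomology of `W_m` is the twist of the part of weight `w` of the cohomology of
`X_s`, and it is different from the weight of the cohomology of the affine space. Every affine scheme of
finite type over a prime field is an `X_s`, for all large `m`. The pieces of the cohomology of an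
arbitrary scheme are direct factors of those of a disjoint union of affine schemes.

The universal system of relations is the one of helper854 (`Pool.Agent.H854.SQ`).
-/

set_option autoImplicit false

open CategoryTheory CategoryTheory.Limits AlgebraicGeometry Pool.Agent.Y116.UV Pool.Agent.Z125.UN
  Pool.Agent.Q193.LT Pool.Agent.H854.SQ Pool.Agent.H367.OS

universe w v u



namespace Pool.Agent.Results.MP_21281f_nt.PiecesOfOneSequence

/-- For all `i ∈ I` (the fields `F`) an element `val i B` of the algebra `R i` (the group algebra
`ℂ[G]`), and the condition `cont i B` that the `L`-functions have analytic continuations. -/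
structure ValData (Ab : Type w) {I : Type} (R : I → Type) where
  /-- the analytic continuation -/
  cont : I → Ab → Prop
  /-- the values of all twists by characters of `G` -/
  val : ∀ i, Ab → R i

/-- The values are in the given subalgebras (the group algebras `ℚ[G]`) for all `i`. -/
def Rational {Ab : Type w} {I : Type} {R : I → Type} [∀ i, CommRing (R i)] [∀ i, Algebra ℚ (R i)]
    (S : ∀ i, Subalgebra ℚ (R i)) (V : ValData Ab R) (B : Ab) : Prop :=
  ∀ i, V.cont i B → V.val i B ∈ S i

/-- **Twists of abelian varieties and single pieces of one sequence of cubic hypersurfaces over the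
integers.** See the explanations above. -/
theorem result {M : Type u} [Category.{v} M] [Abelian M] {D : Pieces ℚ M} (h : IsMot D)
    {Ab : Type w} {h1 : Ab → M} (ha : AbelianVarieties D h1) {I : Type} {R : I → Type}
    [∀ i, CommRing (R i)] [∀ i, Algebra ℚ (R i)] (S : ∀ i, Subalgebra ℚ (R i))
    (V : ValData Ab R) :
    (∀ m, 1 ≤ m → ∀ N : ℕ, ∃ B : Ab, Nonempty (h1 B ≅ (D.tw (esh m N)).obj
      (D.G (1 + 2 * esh m N) (1 + 2 * esh m N + 1) (cubG ℚ m)))) ∧
    (∀ B : Ab, ∀ᶠ m in Filter.atTop, ∃ N : ℕ, Factor (h1 B) ((D.tw (esh m N)).obj
      (D.G (1 + 2 * esh m N) (1 + 2 * esh m N + 1) (cubG ℚ m)))) ∧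
    ((∀ B : Ab, Rational S V B) ↔ ∃ᶠ m in Filter.atTop, ∀ (N : ℕ) (B : Ab),
      Factor (h1 B) ((D.tw (esh m N)).obj
        (D.G (1 + 2 * esh m N) (1 + 2 * esh m N + 1) (cubG ℚ m))) → Rational S V B) ∧
    ∀ m : ℕ, (univG ℤ m).totalDegree ≤ 3 ∧
      ∀ (R : Type) [CommRing R], MvPolynomial.map (Int.castRingHom R) (univG ℤ m) = univG R m ∧
        Smooth (cubG R m).hom := by
  obtain ⟨h2, h3⟩ := abelian_occurs isPrimeField_rat h ha
  exact ⟨h2, h3, all_abelian isPrimeField_rat h ha _, cubG_facts⟩

end Pool.Agent.Results.MP_21281f_nt.PiecesOfOneSequence
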